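import Pool.Agent.H20.LIM.Targets

/-! COR1: truncation of the power series of `1/P`. -/

set_option autoImplicit false

open Complex MeasureTheory Set Filter Topology Metric

namespace Pool.Agent.H85.LIM

open Pool.Agent.H20.LIM Pool.Agent.H23.GLM Pool.Agent.H23.DZ

theorem pf_cor1 (hINV : T_INV) : T_COR1 := by
  intro θ δ hθ hδ hδ8
  set r0 : ℝ := Real.exp (-(3 / 8 * θ)) with hr0
  have hr01 : r0 < 1 := by
    rw [hr0, Real.exp_lt_one_iff]
    nlinarith
  refine ⟨max θ (Real.log (8 / (1 - r0))) / δ, fun Λ hΛ P hP0 hP => ?_⟩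
  have h1 : max θ (Real.log (8 / (1 - r0))) ≤ δ * Λ := by rwa [div_le_iff₀' hδ] at hΛ
  have hA : θ ≤ δ * Λ := (le_max_left _ _).trans h1
  have hB : Real.log (8 / (1 - r0)) ≤ δ * Λ := (le_max_right _ _).trans h1
  have hA0 : 0 < δ * Λ := hθ.trans_le hA
  set a : ℝ := 1 / 2 + δ with ha
  have ha1 : 3 / 8 ≤ 1 - a := by rw [ha]; linarith
  -- the power series
  have hex : ∀ Y : ℂ, ‖Y‖ ≤ Real.exp (-(θ * a)) →
      P.eval Y ≠ 0 ∧ |Real.log ‖P.eval Y‖| ≤ δ * Λ := by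
    intro Y hY
    by_cases hY0 : Y = 0
    · have h2 : P.eval Y = 1 := by
        rw [hY0, ← Polynomial.coeff_zero_eq_eval_zero, hP0]
      rw [h2]
      refine ⟨one_ne_zero, ?_⟩
      simp [hA0.le]
    · have h2 : cexp (-(θ * (-(Complex.log Y) / θ))) = Y := by
        have h3 : -((θ : ℂ) * (-(Complex.log Y) / θ)) = Complex.log Y := by
          have h4 : (θ : ℂ) ≠ 0 := by exact_mod_cast hθ.ne'
          field_simp
        rw [h3, Complex.exp_log hY0]
      have h3 : a ≤ (-(Complex.log Y) / (θ : ℂ)).re := by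
        rw [Complex.div_ofReal_re, Complex.neg_re, Complex.log_re, le_div_iff₀ hθ]
        have h4 : Real.log ‖Y‖ ≤ -(θ * a) := by
          rw [Real.log_le_iff_le_exp (norm_pos_iff.2 hY0)]
          exact hY
        linarith
      have h4 := hP _ h3
      rwa [h2] at h4
  obtain ⟨d, hd1, hd2⟩ := hINV P (Real.exp (-(θ * a))) (δ * Λ) (Real.exp_pos _) hex
  have hd : ∀ k, ‖d k‖ ≤ Real.exp (δ * Λ + θ * a * k) := by
    intro k
    have h2 := hd1 k
    rw [← Real.exp_nat_mul, ← le_div_iff₀ (Real.exp_pos _), ← Real.exp_sub] at h2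
    refine h2.trans (le_of_eq ?_)
    congr 1
    ring
  set n : ℕ := ⌈9 * δ * Λ / θ⌉₊ with hn
  have hn1 : 9 * δ * Λ ≤ n * θ := by
    rw [← div_le_iff₀ hθ]
    exact Nat.le_ceil _
  have hn2 : n * θ ≤ 10 * δ * Λ := by
    have h2 : (n : ℝ) < 9 * δ * Λ / θ + 1 := Nat.ceil_lt_add_one (by
      have h3 : 0 ≤ 9 * δ * Λ := by nlinarith
      positivity)
    have h3 : (n : ℝ) * θ < (9 * δ * Λ / θ + 1) * θ := by
      exact mul_lt_mul_of_pos_right h2 hθ
    have h4 : (9 * δ * Λ / θ + 1) * θ = 9 * δ * Λ + θ := by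
      field_simp
    linarith
  refine ⟨n, d, hn1, hn2, hd, ?_⟩
  intro z hz
  set Y : ℂ := cexp (-(θ * z)) with hY
  have hYn : ‖Y‖ = Real.exp (-(θ * z.re)) := by
    rw [hY, Complex.norm_exp]
    simp
  have hY1 : ‖Y‖ ≤ Real.exp (-θ) := by
    rw [hYn, Real.exp_le_exp]
    nlinarith
  have hYρ : ‖Y‖ < Real.exp (-(θ * a)) := by
    refine hY1.trans_lt ?_
    rw [Real.exp_lt_exp]
    nlinarith
  have hP2 := hP z (by linarith [ha1])
  rw [← hY] at hP2
  have hPn : ‖P.eval Y‖ ≤ Real.exp (δ * Λ) := by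
    rw [← Real.log_le_iff_le_exp (norm_pos_iff.2 hP2.1)]
    exact (le_abs_self _).trans hP2.2
  have hs := hd2 Y hYρ
  have hs2 := (hasSum_nat_add_iff' (n + 1)).2 hs
  -- the tail
  set r : ℝ := Real.exp (-(θ * (1 - a))) with hr
  have hrr0 : r ≤ r0 := by
    rw [hr, hr0, Real.exp_le_exp]
    nlinarith
  have hr1 : r < 1 := hrr0.trans_lt hr01
  have hrpos : 0 < r := Real.exp_pos _
  have hterm : ∀ k : ℕ, ‖d (k + (n + 1)) * Y ^ (k + (n + 1))‖ ≤
      Real.exp (δ * Λ) * r ^ (n + 1) * r ^ k := by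
    intro k
    rw [norm_mul, norm_pow]
    have h2 : ‖Y‖ ^ (k + (n + 1)) ≤ Real.exp (-θ) ^ (k + (n + 1)) :=
      pow_le_pow_left₀ (norm_nonneg _) hY1 _
    calc ‖d (k + (n + 1))‖ * ‖Y‖ ^ (k + (n + 1))
        ≤ Real.exp (δ * Λ + θ * a * (k + (n + 1) : ℕ)) * Real.exp (-θ) ^ (k + (n + 1)) :=
          mul_le_mul (hd _) h2 (by positivity) (Real.exp_pos _).le
      _ = Real.exp (δ * Λ) * r ^ (n + 1) * r ^ k := by
          have e1 : Real.exp (δ * Λ) * r ^ (n + 1) * r ^ k =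
              Real.exp (δ * Λ) * r ^ (n + 1 + k) := by rw [pow_add r (n + 1) k, mul_assoc]
          rw [e1, hr, ← Real.exp_nat_mul, ← Real.exp_nat_mul, ← Real.exp_add, ← Real.exp_add]
          congr 1
          push_cast
          ring
  have hgeo : HasSum (fun k : ℕ => Real.exp (δ * Λ) * r ^ (n + 1) * r ^ k)
      (Real.exp (δ * Λ) * r ^ (n + 1) * (1 - r)⁻¹) :=
    (hasSum_geometric_of_lt_one hrpos.le hr1).mul_left _
  have htail : ‖(P.eval Y)⁻¹ - ∑ k ∈ Finset.range (n + 1), d k * Y ^ k‖ ≤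
      Real.exp (δ * Λ) * r ^ (n + 1) * (1 - r)⁻¹ := by
    rw [← hs2.tsum_eq]
    exact tsum_of_norm_bounded hgeo hterm
  have hkey : P.eval Y * (∑ k ∈ Finset.range (n + 1), d k * Y ^ k) - 1 =
      -(P.eval Y * ((P.eval Y)⁻¹ - ∑ k ∈ Finset.range (n + 1), d k * Y ^ k)) := by
    rw [mul_sub, mul_inv_cancel₀ hP2.1]
    ring
  rw [hkey, norm_neg, norm_mul]
  have hr2 : r ^ (n + 1) ≤ Real.exp (-(27 / 8 * (δ * Λ))) := by
    have h2 : r ^ (n + 1) ≤ r ^ n := pow_le_pow_of_le_one hrpos.le hr1.le (Nat.le_succ n)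
    refine h2.trans ?_
    rw [hr, ← Real.exp_nat_mul, Real.exp_le_exp]
    have h3 : (3 / 8 : ℝ) * (n * θ) ≤ (1 - a) * (n * θ) :=
      mul_le_mul_of_nonneg_right ha1 (by positivity)
    have h4 : (3 / 8 : ℝ) * (9 * δ * Λ) ≤ 3 / 8 * (n * θ) := by linarith
    have h5 : (n : ℝ) * -(θ * (1 - a)) = -((1 - a) * (n * θ)) := by ring
    rw [h5]
    linarith
  have hinv : (1 - r)⁻¹ ≤ (1 - r0)⁻¹ := by
    apply inv_anti₀ (by linarith)
    linarith
  have h8 : 8 * (1 - r0)⁻¹ ≤ Real.exp (δ * Λ) := by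
    have h2 : 0 < 8 / (1 - r0) := by
      apply div_pos (by norm_num)
      linarith
    rw [Real.log_le_iff_le_exp h2] at hB
    rwa [div_eq_mul_inv] at hB
  have hr0inv : 0 < (1 - r0)⁻¹ := inv_pos.2 (by linarith)
  calc ‖P.eval Y‖ * ‖(P.eval Y)⁻¹ - ∑ k ∈ Finset.range (n + 1), d k * Y ^ k‖
      ≤ Real.exp (δ * Λ) * (Real.exp (δ * Λ) * Real.exp (-(27 / 8 * (δ * Λ))) * (1 - r0)⁻¹) := by
        refine mul_le_mul hPn (htail.trans ?_) (norm_nonneg _) (Real.exp_pos _).le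
        refine mul_le_mul (mul_le_mul_of_nonneg_left hr2 (Real.exp_pos _).le) hinv
          (inv_pos.2 (by linarith)).le (by positivity)
    _ = Real.exp (-(11 / 8 * (δ * Λ))) * (1 - r0)⁻¹ := by
        rw [← mul_assoc, ← Real.exp_add, ← Real.exp_add]
        congr 2
        ring
    _ ≤ Real.exp (-(δ * Λ)) * (1 - r0)⁻¹ := by
        refine mul_le_mul_of_nonneg_right ?_ hr0inv.le
        rw [Real.exp_le_exp]
        linarith
    _ ≤ 1 / 8 := by
        rw [Real.exp_neg, inv_mul_le_iff₀ (Real.exp_pos _)]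
        linarith

end Pool.Agent.H85.LIM
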