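import Pool.Agent.H20.LIM.Targets

/-! DIAG: a diagonal sequence. -/

set_option autoImplicit false

open Complex MeasureTheory Set Filter Topology Metric

namespace Pool.Agent.H85.LIM

open Pool.Agent.H20.LIM Pool.Agent.H23.GLM Pool.Agent.H23.DZ

theorem pf_diag : T_DIAG := by
  classical
  intro D f hD hDm hK
  choose K hKc hKm using hK
  -- the sequences
  have hne : ∀ n, (K n).Nonempty := by
    intro n
    obtain ⟨k, x, hx, -⟩ := (hKm n).exists
    exact ⟨x, hx⟩
  have hx : ∀ n k, ∃ x ∈ K n, (∃ y ∈ K n, (y : ℂ → ℝ) =ᵐ[volume.restrict (D n)] f k) →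
      (x : ℂ → ℝ) =ᵐ[volume.restrict (D n)] f k := by
    intro n k
    by_cases h : ∃ y ∈ K n, (y : ℂ → ℝ) =ᵐ[volume.restrict (D n)] f k
    · obtain ⟨y, hy, hy2⟩ := h
      exact ⟨y, hy, fun _ => hy2⟩
    · obtain ⟨y, hy⟩ := hne n
      exact ⟨y, hy, fun h' => absurd h' h⟩
  choose x hxK hxf using hx
  have hxe : ∀ n, ∀ᶠ k in atTop, (x n k : ℂ → ℝ) =ᵐ[volume.restrict (D n)] f k := by
    intro n
    filter_upwards [hKm n] with k hk
    exact hxf n k hk
  -- the subsequence
  have hcomp : IsCompact (Set.pi Set.univ K) := isCompact_univ_pi hKc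
  obtain ⟨y, -, φ, hφ, hy⟩ := hcomp.tendsto_subseq (x := fun k n => x n k)
    (fun k n _ => hxK n k)
  rw [tendsto_pi_nhds] at hy
  have hy1 : ∀ n, Tendsto (fun k => ∫⁻ z in D n, ‖x n (φ k) z - y n z‖ₑ) atTop (𝓝 0) := by
    intro n
    have h1 := (Lp.tendsto_Lp_iff_tendsto_eLpNorm' _ _).1 (hy n)
    refine h1.congr fun k => ?_
    rw [eLpNorm_one_eq_lintegral_enorm]
    rfl
  have hxφ : ∀ n, ∀ᶠ k in atTop, (x n (φ k) : ℂ → ℝ) =ᵐ[volume.restrict (D n)] f (φ k) :=
    fun n => hφ.tendsto_atTop.eventually (hxe n)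
  have hy2 : ∀ n, Tendsto (fun k => ∫⁻ z in D n, ‖f (φ k) z - y n z‖ₑ) atTop (𝓝 0) := by
    intro n
    refine (hy1 n).congr' ?_
    filter_upwards [hxφ n] with k hk
    refine lintegral_congr_ae ?_
    filter_upwards [hk] with z hz
    rw [hz]
  -- consistency
  have hcons : ∀ m n, m ≤ n → (y n : ℂ → ℝ) =ᵐ[volume.restrict (D m)] y m := by
    intro m n hmn
    have hle : volume.restrict (D m) ≤ volume.restrict (D n) :=
      Measure.restrict_mono_set _ (hD hmn)
    have hmeas : ∀ k, AEMeasurable (fun z => ‖x n (φ k) z - y n z‖ₑ) (volume.restrict (D m)) := by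
      intro k
      exact (((Lp.stronglyMeasurable _).sub (Lp.stronglyMeasurable _)).enorm).aemeasurable
    have h1 : Tendsto (fun k => (∫⁻ z in D n, ‖x n (φ k) z - y n z‖ₑ) +
        ∫⁻ z in D m, ‖x m (φ k) z - y m z‖ₑ) atTop (𝓝 0) := by
      have h2 := (hy1 n).add (hy1 m)
      rwa [add_zero] at h2
    have h2 : ∫⁻ z in D m, ‖y n z - y m z‖ₑ = 0 := by
      refine le_antisymm (ge_of_tendsto h1 ?_) bot_le
      filter_upwards [hxφ n, hxφ m] with k hk1 hk2
      have hk3 : (x n (φ k) : ℂ → ℝ) =ᵐ[volume.restrict (D m)] f (φ k) :=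
        hk1.filter_mono (ae_mono hle)
      calc ∫⁻ z in D m, ‖y n z - y m z‖ₑ
          ≤ ∫⁻ z in D m, (‖x n (φ k) z - y n z‖ₑ + ‖x m (φ k) z - y m z‖ₑ) := by
            refine lintegral_mono_ae ?_
            filter_upwards [hk2, hk3] with z h3 h4
            have h5 : y n z - y m z = -(x n (φ k) z - y n z) + (x m (φ k) z - y m z) := by
              rw [h3, h4]
              ring
            rw [h5]
            refine (enorm_add_le _ _).trans ?_
            rw [enorm_neg]
        _ = (∫⁻ z in D m, ‖x n (φ k) z - y n z‖ₑ) + ∫⁻ z in D m, ‖x m (φ k) z - y m z‖ₑ :=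
            lintegral_add_left' (hmeas k) _
        _ ≤ _ := add_le_add (lintegral_mono' hle le_rfl) le_rfl
    rw [lintegral_eq_zero_iff'] at h2
    · filter_upwards [h2] with z hz
      have h3 : ‖y n z - y m z‖ₑ = 0 := hz
      rw [enorm_eq_zero, sub_eq_zero] at h3
      exact h3
    · exact (((Lp.stronglyMeasurable _).sub (Lp.stronglyMeasurable _)).enorm).aemeasurable
  have hcons2 : ∀ᵐ z : ℂ, ∀ m n, m ≤ n → z ∈ D m → y n z = y m z := by
    rw [ae_all_iff]
    intro m
    rw [ae_all_iff]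
    intro n
    by_cases hmn : m ≤ n
    · have h1 := hcons m n hmn
      rw [Filter.EventuallyEq, ae_restrict_iff' (hDm m)] at h1
      filter_upwards [h1] with z hz _ hzm
      exact hz hzm
    · exact Eventually.of_forall fun z h => absurd h hmn
  -- the limit
  have hp : ∀ z : ℂ, ∃ n, z ∈ D n ∨ z ∉ ⋃ n, D n := by
    intro z
    by_cases h : z ∈ ⋃ n, D n
    · obtain ⟨n, hn⟩ := mem_iUnion.1 h
      exact ⟨n, Or.inl hn⟩
    · exact ⟨0, Or.inr h⟩
  have hum : Measurable fun z => y (Nat.find (hp z)) z := by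
    refine Measurable.find (f := fun n z => y n z) (p := fun n z => z ∈ D n ∨ z ∉ ⋃ n, D n)
      (fun n => (Lp.stronglyMeasurable (y n)).measurable) (fun n => ?_) hp
    exact (hDm n).union (MeasurableSet.iUnion hDm).compl
  have hue : ∀ n, (fun z => y (Nat.find (hp z)) z) =ᵐ[volume.restrict (D n)] y n := by
    intro n
    rw [Filter.EventuallyEq, ae_restrict_iff' (hDm n)]
    filter_upwards [hcons2] with z hz hzn
    have h1 : Nat.find (hp z) ≤ n := Nat.find_min' _ (Or.inl hzn)
    have h2 : z ∈ D (Nat.find (hp z)) := by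
      rcases Nat.find_spec (hp z) with h | h
      · exact h
      · exact absurd (mem_iUnion.2 ⟨n, hzn⟩) h
    exact (hz _ _ h1 h2).symm
  refine ⟨φ, hφ, fun z => y (Nat.find (hp z)) z, hum, fun n => ⟨?_, ?_⟩⟩
  · exact (L1.integrable_coeFn (y n)).congr (hue n).symm
  · refine (hy2 n).congr fun k => ?_
    refine lintegral_congr_ae ?_
    filter_upwards [hue n] with z hz
    rw [hz]

end Pool.Agent.H85.LIM
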